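import Pool.Agent.TH91.LG.Asm
import Pool.Agent.V11106.Nil2

/-!
# Project NL (MP_35c333_an, S04319): polynomial recurrence in totally minimal nilsystems

Basic definitions: matrices, sequences of matrices, the weight filtration, the shift, the big
group, the Lie algebra.
-/

set_option autoImplicit false

namespace Run7.h664.NL

open Finset Filter Topology Pool.Agent.TH91.RF Pool.Agent.TH91.NB Pool.Agent.TH91.LG
open scoped commutatorElement

/-- square real matrices -/
abbrev Mt (N : ℕ) := Matrix (Fin N) (Fin N) ℝ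

/-- the filtration of the matrices by the distance to the diagonal -/
noncomputable abbrev mF (N : ℕ) : Filt (Mt N) N := J887.matFiltR N

/-- the exponential as a unit (total function, `1` outside the strictly upper triangular
matrices) -/
noncomputable def E {N : ℕ} (x : Mt N) : (Mt N)ˣ :=
  open Classical in if h : x ∈ (mF N).F 1 then J1261.ue x h else 1

theorem E_val {N : ℕ} {x : Mt N} (h : x ∈ (mF N).F 1) : ((E x : (Mt N)ˣ) : Mt N) = IsNilpotent.exp x := by
  unfold E
  rw [dif_pos h]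
  rfl

theorem E_inv_val {N : ℕ} {x : Mt N} (h : x ∈ (mF N).F 1) :
    (((E x)⁻¹ : (Mt N)ˣ) : Mt N) = IsNilpotent.exp (-x) := by
  unfold E
  rw [dif_pos h]
  rfl

/-- functions on `ℤ × Fin d` with values in the matrices (a ring, pointwise) -/
abbrev AF (N d : ℕ) := ℤ × Fin d → Mt N

/-- the weight filtration: `x ∈ F t` when all entries `x (l, i) r s` are polynomials in `l`, which
are zero or satisfy `r ≤ s` and `degree + t ≤ M (s - r)`. -/
def wtS (N d M t : ℕ) : Submodule ℝ (AF N d) where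
  carrier := {x | ∀ (i : Fin d) (r s : Fin N), ∃ q : Polynomial ℝ,
    (∀ l : ℤ, x (l, i) r s = q.eval (l : ℝ)) ∧
      (q = 0 ∨ ((r : ℕ) ≤ s ∧ q.natDegree + t ≤ M * ((s : ℕ) - r)))}
  add_mem' := by
    intro x y hx hy i r s
    obtain ⟨q, hq, hq2⟩ := hx i r s
    obtain ⟨q', hq', hq2'⟩ := hy i r s
    refine ⟨q + q', fun l => ?_, ?_⟩
    · rw [Polynomial.eval_add, ← hq, ← hq']
      rfl
    · rcases hq2 with rfl | h1
      · rw [zero_add]; exact hq2'
      rcases hq2' with rfl | h2
      · rw [add_zero]; exact Or.inr h1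
      refine Or.inr ⟨h1.1, ?_⟩
      have := Polynomial.natDegree_add_le q q'
      omega
  zero_mem' := fun i r s => ⟨0, fun l => by simp, Or.inl rfl⟩
  smul_mem' := by
    intro c x hx i r s
    obtain ⟨q, hq, hq2⟩ := hx i r s
    refine ⟨c • q, fun l => ?_, ?_⟩
    · rw [Polynomial.eval_smul, ← hq]
      rfl
    · rcases hq2 with rfl | h1
      · exact Or.inl (smul_zero c)
      · have := Polynomial.natDegree_smul_le c q
        exact Or.inr ⟨h1.1, by omega⟩

theorem wtS_anti {N d M i j : ℕ} (h : i ≤ j) : wtS N d M j ≤ wtS N d M i := by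
  intro x hx k r s
  obtain ⟨q, hq, hq2⟩ := hx k r s
  refine ⟨q, hq, ?_⟩
  rcases hq2 with h0 | h1
  · exact Or.inl h0
  · exact Or.inr ⟨h1.1, by omega⟩

theorem deg_sum {ι : Type*} (S : Finset ι) (q : ι → Polynomial ℝ) (a b : ℕ) (hab : Prop)
    (h : ∀ m ∈ S, q m = 0 ∨ (hab ∧ (q m).natDegree + a ≤ b)) :
    (∑ m ∈ S, q m) = 0 ∨ (hab ∧ (∑ m ∈ S, q m).natDegree + a ≤ b) := by
  classical
  induction S using Finset.induction_on with
  | empty => left; simp
  | insert m S hm ih =>
    rw [Finset.sum_insert hm]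
    have h1 := h m (Finset.mem_insert_self _ _)
    have h2 := ih fun k hk => h k (Finset.mem_insert_of_mem hk)
    rcases h1 with h1 | h1
    · rw [h1, zero_add]; exact h2
    rcases h2 with h2 | h2
    · rw [h2, add_zero]; exact Or.inr h1
    refine Or.inr ⟨h1.1, ?_⟩
    have := Polynomial.natDegree_add_le (q m) (∑ m ∈ S, q m)
    omega

theorem wtS_mul {N d M i j : ℕ} {x y : AF N d} (hx : x ∈ wtS N d M i) (hy : y ∈ wtS N d M j) :
    x * y ∈ wtS N d M (i + j) := by
  intro k r s
  choose qx hqx hqx2 using fun m => hx k r m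
  choose qy hqy hqy2 using fun m => hy k m s
  have key : ∀ m ∈ (Finset.univ : Finset (Fin N)), qx m * qy m = 0 ∨
      ((r : ℕ) ≤ s ∧ (qx m * qy m).natDegree + (i + j) ≤ M * ((s : ℕ) - r)) := by
    intro m _
    rcases hqx2 m with h | ⟨h1, h2⟩
    · left; rw [h, zero_mul]
    rcases hqy2 m with h | ⟨h3, h4⟩
    · left; rw [h, mul_zero]
    right
    refine ⟨h1.trans h3, ?_⟩
    have e : (s : ℕ) - r = (m - r) + (s - m) := by omega
    rw [e, mul_add]
    have := Polynomial.natDegree_mul_le (p := qx m) (q := qy m)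
    omega
  refine ⟨∑ m, qx m * qy m, fun l => ?_, deg_sum _ _ _ _ _ key⟩
  rw [Polynomial.eval_finsetSum, Pi.mul_apply, Matrix.mul_apply]
  exact Finset.sum_congr rfl fun m _ => by rw [Polynomial.eval_mul, hqx, hqy]

theorem rat_smul_mem {A : Type*} [AddCommGroup A] [Module ℝ A] [Module ℚ A] (W : Submodule ℝ A) (q : ℚ)
    {x : A} (hx : x ∈ W) : q • x ∈ W := by
  rw [← Rat.cast_smul_eq_qsmul ℝ]
  exact W.smul_mem _ hx

/-- the weight filtration as a filtration in the sense of the library -/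
noncomputable def wtF (N d M : ℕ) : Filt (AF N d) (M * N + 1) where
  F t :=
    { carrier := {x | x ∈ wtS N d M t}
      add_mem' := fun hx hy => (wtS N d M t).add_mem hx hy
      zero_mem' := (wtS N d M t).zero_mem
      smul_mem' := by
        intro q x hx
        exact rat_smul_mem (wtS N d M t) q hx }
  anti := fun h _ hx => wtS_anti h hx
  mul := fun hx hy => wtS_mul hx hy
  bot := by
    intro x hx
    funext p
    obtain ⟨l, i⟩ := p
    ext r s
    obtain ⟨q, hq, hq2⟩ := hx i r s
    rw [hq]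
    rcases hq2 with rfl | ⟨h1, h2⟩
    · simp
    · exfalso
      have h3 : M * ((s : ℕ) - r) ≤ M * N := Nat.mul_le_mul_left _ (by omega)
      omega

theorem mem_wtF {N d M t : ℕ} {x : AF N d} : x ∈ (wtF N d M).F t ↔ x ∈ wtS N d M t := by
  constructor
  · intro h; exact h
  · intro h; exact h

/-- the shift -/
def sh {N d : ℕ} (n : ℤ) : AF N d →ₗ[ℝ] AF N d where
  toFun x := fun p => x (p.1 + n, p.2)
  map_add' _ _ := rfl
  map_smul' _ _ := rfl

theorem sh_apply {N d : ℕ} (n : ℤ) (x : AF N d) (p : ℤ × Fin d) : sh n x p = x (p.1 + n, p.2) := rfl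

theorem sh_mul {N d : ℕ} (n : ℤ) (x y : AF N d) : sh n (x * y) = sh n x * sh n y := rfl

theorem sh_zero {N d : ℕ} (x : AF N d) : sh 0 x = x := by
  funext p
  rw [sh_apply, add_zero]

theorem sh_add {N d : ℕ} (m n : ℤ) (x : AF N d) : sh m (sh n x) = sh (m + n) x := by
  funext p
  rw [sh_apply, sh_apply, sh_apply, add_assoc]

/-- the smallest subspace containing `S` and closed under the bracket -/
def lieSp {A : Type*} [Ring A] [Algebra ℝ A] (S : Set A) : Submodule ℝ A :=
  sInf {W : Submodule ℝ A | S ⊆ W ∧ ∀ x ∈ W, ∀ y ∈ W, x * y - y * x ∈ W}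

theorem subset_lieSp {A : Type*} [Ring A] [Algebra ℝ A] (S : Set A) : S ⊆ lieSp S := by
  intro x hx
  rw [SetLike.mem_coe, lieSp, Submodule.mem_sInf]
  exact fun W hW => hW.1 hx

theorem lieSp_br {A : Type*} [Ring A] [Algebra ℝ A] (S : Set A) {x y : A} (hx : x ∈ lieSp S)
    (hy : y ∈ lieSp S) : x * y - y * x ∈ lieSp S := by
  rw [lieSp, Submodule.mem_sInf] at *
  exact fun W hW => hW.2 x (hx W hW) y (hy W hW)

theorem lieSp_le {A : Type*} [Ring A] [Algebra ℝ A] {S : Set A} {W : Submodule ℝ A} (h1 : S ⊆ W)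
    (h2 : ∀ x ∈ W, ∀ y ∈ W, x * y - y * x ∈ W) : lieSp S ≤ W := sInf_le ⟨h1, h2⟩

/-! ### The data -/

/-- A nilpotent Lie algebra `k` of strictly upper triangular matrices, the logarithm `Mc` of a
unipotent matrix `γ` normalizing it, and the logarithm `Mg` of the matrix `g ∈ exp(k) γ` of the
translation. -/
structure Core (N : ℕ) where
  k : Submodule ℝ (Mt N)
  sup : ∀ x ∈ k, x ∈ (mF N).F 1
  br : ∀ x ∈ k, ∀ y ∈ k, x * y - y * x ∈ k
  Mc : Mt N
  supMc : Mc ∈ (mF N).F 1
  brMc : ∀ x ∈ k, Mc * x - x * Mc ∈ k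
  Mg : Mt N
  supMg : Mg ∈ (mF N).F 1
  diff : Mg - Mc ∈ k

section data

variable {N d : ℕ} (C : Core N) (P : Fin d → Polynomial ℤ)

/-- `A ξ h (l, i) = γ ^ p_i(l+h) ξ γ ^ (-p_i(l+h))` -/
noncomputable def Af (ξ : Mt N) (h : ℤ) : AF N d := fun p =>
  ((E C.Mc ^ ((P p.2).eval (p.1 + h)) : (Mt N)ˣ) : Mt N) * ξ *
    ((E C.Mc ^ (-((P p.2).eval (p.1 + h))) : (Mt N)ˣ) : Mt N)

/-- `B ξ h (l, i) = p_i'(l+h) γ ^ p_i(l+h) ξ γ ^ (-p_i(l+h))` -/
noncomputable def Bf (ξ : Mt N) (h : ℤ) : AF N d := fun p =>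
  ((((P p.2).derivative.eval (p.1 + h) : ℤ) : ℝ)) • Af C P ξ h p

/-- the Lie algebra `𝔥` -/
noncomputable def hh : Submodule ℝ (AF N d) :=
  lieSp {x | ∃ ξ ∈ C.k, ∃ h : ℤ, x = Af C P ξ h ∨ x = Bf C P ξ h}

/-- the subspace spanned by the brackets and `(S - 1) 𝔥` -/
noncomputable def jj : Submodule ℝ (AF N d) :=
  Submodule.span ℝ ({x | ∃ u ∈ hh C P, ∃ v ∈ hh C P, x = u * v - v * u} ∪
    {x | ∃ u ∈ hh C P, x = sh 1 u - u})

end data

/-! ### The big group -/

/-- Sequences of invertible matrices and a shift. -/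
@[ext] structure BG (N d : ℕ) where
  u : ℤ × Fin d → (Mt N)ˣ
  s : ℤ

namespace BG

variable {N d : ℕ}

instance : Mul (BG N d) := ⟨fun a b => ⟨fun p => a.u p * b.u (p.1 + a.s, p.2), a.s + b.s⟩⟩
instance : One (BG N d) := ⟨⟨fun _ => 1, 0⟩⟩
instance : Inv (BG N d) := ⟨fun a => ⟨fun p => (a.u (p.1 - a.s, p.2))⁻¹, -a.s⟩⟩

theorem mul_u (a b : BG N d) (p : ℤ × Fin d) : (a * b).u p = a.u p * b.u (p.1 + a.s, p.2) := rfl
theorem mul_s (a b : BG N d) : (a * b).s = a.s + b.s := rfl
theorem one_u (p : ℤ × Fin d) : (1 : BG N d).u p = 1 := rfl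
theorem one_s : (1 : BG N d).s = 0 := rfl
theorem inv_u (a : BG N d) (p : ℤ × Fin d) : (a⁻¹).u p = (a.u (p.1 - a.s, p.2))⁻¹ := rfl
theorem inv_s (a : BG N d) : (a⁻¹).s = -a.s := rfl

instance : Group (BG N d) :=
  Group.ofLeftAxioms
    (by
      intro a b c
      apply BG.ext
      · funext p
        rw [mul_u, mul_u, mul_u, mul_u, mul_s, mul_assoc, add_assoc]
      · rw [mul_s, mul_s, mul_s, mul_s, add_assoc])
    (by
      intro a
      apply BG.ext
      · funext p
        rw [mul_u, one_u, one_mul, one_s, add_zero]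
      · rw [mul_s, one_s, zero_add])
    (by
      intro a
      apply BG.ext
      · funext p
        rw [mul_u, inv_u, one_u, inv_s, ← sub_eq_add_neg, inv_mul_cancel]
      · rw [mul_s, inv_s, one_s, neg_add_cancel])

/-- the underlying pair -/
def toP (a : BG N d) : (ℤ × Fin d → (Mt N)ˣ) × ℤ := (a.u, a.s)

instance : TopologicalSpace (BG N d) := TopologicalSpace.induced toP inferInstance

theorem continuous_toP : Continuous (toP (N := N) (d := d)) := continuous_induced_dom

theorem continuous_u (p : ℤ × Fin d) : Continuous (fun a : BG N d => a.u p) :=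
  (continuous_apply p).comp (continuous_fst.comp continuous_toP)

theorem continuous_s : Continuous (fun a : BG N d => a.s) := continuous_snd.comp continuous_toP

theorem continuous_mk {T : Type*} [TopologicalSpace T] {f : T → BG N d}
    (h1 : ∀ p, Continuous fun t => (f t).u p) (h2 : Continuous fun t => (f t).s) : Continuous f := by
  rw [continuous_induced_rng]
  exact (continuous_pi h1).prodMk h2

/-- continuity of an evaluation at a place depending continuously on the parameter -/
theorem continuous_eval {T : Type*} [TopologicalSpace T] {f : T → BG N d} {g : T → ℤ} (i : Fin d)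
    (hf : Continuous f) (hg : Continuous g) : Continuous fun t => (f t).u (g t, i) := by
  have h : Continuous fun q : BG N d × ℤ => q.1.u (q.2, i) := by
    refine continuous_prod_of_discrete_right.2 fun n => ?_
    exact continuous_u (n, i)
  exact h.comp (hf.prodMk hg)

instance : IsTopologicalGroup (BG N d) where
  continuous_mul := by
    refine continuous_mk (fun p => ?_) ?_
    · simp only [mul_u]
      exact ((continuous_u p).comp continuous_fst).mul
        (continuous_eval p.2 continuous_snd (continuous_const.add (continuous_s.comp continuous_fst)))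
    · simp only [mul_s]
      exact (continuous_s.comp continuous_fst).add (continuous_s.comp continuous_snd)
  continuous_inv := by
    refine continuous_mk (fun p => ?_) ?_
    · simp only [inv_u]
      exact (continuous_eval p.2 continuous_id (continuous_const.sub continuous_s)).inv
    · simp only [inv_s]
      exact continuous_s.neg

instance : T2Space (BG N d) :=
  T2Space.of_injective_continuous (f := toP) (fun a b h => by
    have h1 : a.u = b.u := congrArg Prod.fst h
    have h2 : a.s = b.s := congrArg Prod.snd h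
    exact BG.ext h1 h2) continuous_toP

end BG

section groups

variable {N d : ℕ} (C : Core N) (P : Fin d → Polynomial ℤ)

/-- the group generated by `exp 𝔥`, the constant `γ` and the shift -/
noncomputable def GG : Subgroup (BG N d) := Subgroup.closure
  ({x | ∃ F ∈ hh C P, x = ⟨fun p => E (F p), 0⟩} ∪ {⟨fun _ => E C.Mc, 0⟩} ∪ {⟨fun _ => 1, 1⟩})

/-- `b (l, i) = g ^ p_i(l) γ ^ (-p_i(l))` -/
noncomputable def bb (p : ℤ × Fin d) : (Mt N)ˣ :=
  E C.Mg ^ ((P p.2).eval p.1) * E C.Mc ^ (-((P p.2).eval p.1))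

/-- the conjugated shift `b⁻¹ S b` -/
noncomputable def z1 : BG N d := ⟨fun p => (bb C P p)⁻¹ * bb C P (p.1 + 1, p.2), 1⟩

/-- the conjugated translation `b⁻¹ g b` -/
noncomputable def z2 : BG N d := ⟨fun p => (bb C P p)⁻¹ * E C.Mg * bb C P p, 0⟩

/-- The dynamical data: a compact space `X` with a continuous action of a group of matrices
containing `exp k`, `γ`, `g`. -/
structure Dyn (H : Subgroup (Mt N)ˣ) (X : Type*) [TopologicalSpace X] [MulAction H X] (x0 : X) :
    Prop where
  mem : ∀ x ∈ C.k, E x ∈ H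
  memc : E C.Mc ∈ H
  memg : E C.Mg ∈ H
  fix : (⟨E C.Mc, memc⟩ : H) • x0 = x0
  bdd : ∃ R : ℝ, ∀ y : X, ∃ (x : Mt N) (hx : x ∈ C.k), (∀ i j, |x i j| ≤ R) ∧
    (⟨E x, mem x hx⟩ : H) • x0 = y
  min : ∀ y : X, Dense (Set.range fun n : ℤ => (⟨E C.Mg, memg⟩ : H) ^ n • y)

/-- the stabilizer as a group of matrices -/
def St {H : Subgroup (Mt N)ˣ} {X : Type*} [MulAction H X] (x0 : X) : Subgroup (Mt N)ˣ :=
  (MulAction.stabilizer H x0).map H.subtype

/-- the subgroup of the sequences fixing the base point, with shift divisible by `k` -/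
def Lam {H : Subgroup (Mt N)ˣ} {X : Type*} [MulAction H X] (x0 : X) (k : ℕ) : Subgroup (GG C P) where
  carrier := {x | (∀ p, (x : BG N d).u p ∈ St (H := H) x0) ∧ (k : ℤ) ∣ (x : BG N d).s}
  mul_mem' := by
    rintro a b ⟨ha1, ha2⟩ ⟨hb1, hb2⟩
    refine ⟨fun p => ?_, ?_⟩
    · rw [Subgroup.coe_mul, BG.mul_u]
      exact (St (H := H) x0).mul_mem (ha1 _) (hb1 _)
    · rw [Subgroup.coe_mul, BG.mul_s]
      exact dvd_add ha2 hb2
  one_mem' := ⟨fun p => (St (H := H) x0).one_mem, dvd_zero _⟩
  inv_mem' := by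
    rintro a ⟨ha1, ha2⟩
    refine ⟨fun p => ?_, ?_⟩
    · rw [Subgroup.coe_inv, BG.inv_u]
      exact (St (H := H) x0).inv_mem (ha1 _)
    · rw [Subgroup.coe_inv, BG.inv_s]
      exact (dvd_neg).2 ha2

end groups

end Run7.h664.NL
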