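import Pool.Agent.Run7.h664.NL.RED

/-!
# The reduction of the theorem to matrices, used for the final statement
-/

set_option autoImplicit false

namespace Run7.h664.NL

/-- what is needed from the leaves -/
def S_DYN : Prop := ∀ (N : ℕ) (C : Core N) (H : Subgroup (Mt N)ˣ) (X : Type) [TopologicalSpace X]
  [CompactSpace X] [T2Space X] [MulAction H X] [ContinuousSMul H X] (x0 : X) (D : Dyn C H X x0)
  (d : ℕ) (P : Fin d → Polynomial ℤ), (∀ i, (P i).eval 0 = 0) → ∀ k : ℕ, 0 < k → ∀ j : ℕ, j < k →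
  ∀ U : Set X, IsOpen U → U.Nonempty → ∃ n : ℕ, 0 < n ∧ ∃ x ∈ U, ∀ i,
    (⟨E C.Mg, D.memg⟩ : H) ^ ((P i).eval ((k : ℤ) * (n : ℤ) + (j : ℤ))) • x ∈ U

theorem final_of (hD : S_DYN) : ∀ (E' : Type) [NormedAddCommGroup E'] [NormedSpace ℝ E']
    [FiniteDimensional ℝ E'] (G : Type) [Group G] [TopologicalSpace G] [ChartedSpace E' G]
    [LieGroup (modelWithCornersSelf ℝ E') ((⊤ : ℕ∞) : WithTop ℕ∞) G] [Group.IsNilpotent G]
    (Γ : Subgroup G), DiscreteTopology Γ → CompactSpace (G ⧸ Γ) →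
    ∀ g : G, (∀ m : ℕ, 0 < m → ∀ x : G ⧸ Γ,
        Dense (Set.range (fun n : ℤ => (g ^ m) ^ n • x))) →
    ∀ (d : ℕ) (p : Fin d → Polynomial ℤ), (∀ i, (p i).eval 0 = 0) →
    ∀ k : ℕ, 0 < k → ∀ j : ℕ, j < k →
    ∀ U : Set (G ⧸ Γ), IsOpen U → U.Nonempty →
    ∃ n : ℕ, 0 < n ∧ ∃ x ∈ U, ∀ i, g ^ ((p i).eval ((k : ℤ) * (n : ℤ) + (j : ℤ))) • x ∈ U := by
  intro E' _ _ _ G _ _ _ _ _ Γ hdisc hcomp g hmin d p hp k hk j hj U hU hne
  obtain ⟨hT2, N, C, H, φ, hφ, hg, hφg, x0, hDyn⟩ := t_RED E' G Γ hdisc hcomp g hmin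
  have hG : IsTopologicalGroup G :=
    topologicalGroup_of_lieGroup (modelWithCornersSelf ℝ E') ((⊤ : ℕ∞) : WithTop ℕ∞)
  letI act : MulAction H (G ⧸ Γ) := MulAction.compHom (G ⧸ Γ) φ
  have hcs : ContinuousSMul H (G ⧸ Γ) := by
    refine ⟨?_⟩
    have h1 : Continuous fun q : G × (G ⧸ Γ) => q.1 • q.2 := continuous_smul
    exact h1.comp ((hφ.comp continuous_fst).prodMk continuous_snd)
  obtain ⟨n, hn, x, hx, h⟩ := hD N C H (G ⧸ Γ) x0 hDyn d p hp k hk j hj U hU hne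
  refine ⟨n, hn, x, hx, fun i => ?_⟩
  have h1 := h i
  have h2 : (⟨E C.Mg, hDyn.memg⟩ : H) ^ ((p i).eval ((k : ℤ) * (n : ℤ) + (j : ℤ))) • x =
      g ^ ((p i).eval ((k : ℤ) * (n : ℤ) + (j : ℤ))) • x := by
    change φ (_ ^ _) • x = _
    rw [map_zpow, hφg]
  rw [h2] at h1
  exact h1

end Run7.h664.NL
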