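import Pool.Agent.Run7.h664.NL.Fin1
import Pool.Agent.Run7.h160.NL.SHF
import Pool.Agent.Run7.h160.NL.ABM
import Pool.Agent.Run7.h929.NL.ADD
import Pool.Agent.Run7.h929.NL.CHI
import Pool.Agent.Run7.h638.NL.CL
import Pool.Agent.Run7.h882.NL.Fin
import Pool.Agent.Run7.h484.NL.GP1
import Pool.Agent.Run7.h484.NL.QR2
import Pool.Agent.Run7.h484.NL.GP2
import Pool.Agent.Run7.h484.NL.GP
import Pool.Agent.Run7.h255.NL.ZZ
import Pool.Agent.Run7.h171.NL.GEN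
import Pool.Agent.Run7.h171.NL.GGM
import Pool.Agent.Run7.h171.NL.CPT
import Pool.Agent.Run7.h651.NL.NIL
import Pool.Agent.Run7.h651.NL.CLO
import Pool.Agent.Run7.h502.NL.F4
import Pool.Agent.Run7.h502.NL.G0
import Pool.Agent.Run7.h502.NL.UNI

/-!
# The assembly of all the leaves
-/

set_option autoImplicit false

namespace Run7.h664.NL

theorem t_DYN : S_DYN := by
  have hFIN : S_FIN := Pool.Agent.Run7.h882.NL.fin Run7.h160.NL.t_SHF Run7.h160.NL.t_ABM Run7.h502.NL.T_UNI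
    Run7.h502.NL.T_F4 Run7.h502.NL.T_G0 Run7.h638.NL.t_CL Run7.h171.NL.t_GEN Run7.h929.NL.ADD
    Run7.h484.NL.t_GP1 Run7.h484.NL.t_QR2 Run7.h484.NL.t_GP2
  intro N C H X _ _ _ _ _ x0 D d P hP k hk j hj U hU hne
  exact hFIN Run7.h160.NL.t_HHP Run7.h171.NL.t_GGM Run7.h651.NL.t_NIL Run7.h255.NLZZ.t_ZZ
    Run7.h171.NL.t_CPT Run7.h651.NL.t_CLO Run7.h929.NL.CHI Run7.h484.NL.t_GP N C H X x0 D d P hP k hk
    j hj U hU hne

theorem final : ∀ (E' : Type) [NormedAddCommGroup E'] [NormedSpace ℝ E']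
    [FiniteDimensional ℝ E'] (G : Type) [Group G] [TopologicalSpace G] [ChartedSpace E' G]
    [LieGroup (modelWithCornersSelf ℝ E') ((⊤ : ℕ∞) : WithTop ℕ∞) G] [Group.IsNilpotent G]
    (Γ : Subgroup G), DiscreteTopology Γ → CompactSpace (G ⧸ Γ) →
    ∀ g : G, (∀ m : ℕ, 0 < m → ∀ x : G ⧸ Γ,
        Dense (Set.range (fun n : ℤ => (g ^ m) ^ n • x))) →
    ∀ (d : ℕ) (p : Fin d → Polynomial ℤ), (∀ i, (p i).eval 0 = 0) →
    ∀ k : ℕ, 0 < k → ∀ j : ℕ, j < k →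
    ∀ U : Set (G ⧸ Γ), IsOpen U → U.Nonempty →
    ∃ n : ℕ, 0 < n ∧ ∃ x ∈ U, ∀ i, g ^ ((p i).eval ((k : ℤ) * (n : ℤ) + (j : ℤ))) • x ∈ U :=
  final_of t_DYN

end Run7.h664.NL
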