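import Pool.Agent.Run7.h664.NL.Defs

/-!
# Project NL (MP_35c333_an, frozen statement S04319): the leaves

Each `S_XXX` is a closed proposition. A leaf is done by a file
`Pool/Agent/Run7/h664/NL/XXX.lean` (or in your own folder) with `theorem ... : S_XXX`.
See `work/h664/proof.md` for the paper proof.
-/

set_option autoImplicit false

namespace Run7.h664.NL

open Finset Filter Topology Pool.Agent.TH91.RF Pool.Agent.TH91.NB Pool.Agent.TH91.LG
open scoped commutatorElement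

/-! ### Algebra of sequences -/

/-- [SHF] the shift preserves the weight filtration and is unipotent on it.
Proof: `q(l+n)` has the degree of `q` and `q(l+n) - q(l)` has smaller degree (or is zero); take
`q.comp (X + C n)`. When `q.natDegree = 0` the difference is zero. -/
def S_SHF : Prop := ∀ (N d M t : ℕ) (n : ℤ) (x : AF N d), x ∈ (wtF N d M).F t →
  sh n x ∈ (wtF N d M).F t ∧ sh n x - x ∈ (wtF N d M).F (t + 1)

/-- [ABM] the generators are in the weight filtration. With `D = max deg p_i`: the entries `(r, s)` of `γ ^ k` are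
polynomials in `k` of degree `≤ s - r` (`γ ^ k = exp (k Mc)`, and `Mc ^ m ∈ F m`); so the entries of
`γ ^ k ξ γ ^ (-k)` have degree `≤ s - r - 1` in `k`, and `k = p_i (l + h)` has degree `≤ M` in `l`;
so `A` has degree `≤ M (s - r - 1)` and `B` degree `≤ M (s - r - 1) + (M - 1)`.
Use `wtF` of the constant matrices: e.g. show `p_i(l+h)^m • Mc^m ∈ F 0` (for `M ≥ 1`),
`ξ ∈ F M` as a constant function, `p_i' (l+h) • 1`-multiples lower the index by `M - 1`. -/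
def S_ABM : Prop := ∀ (N d M : ℕ) (C : Core N) (P : Fin d → Polynomial ℤ), 1 ≤ M →
  (∀ i, (P i).natDegree ≤ M) → ∀ ξ ∈ C.k, ∀ h : ℤ,
    Af C P ξ h ∈ (wtF N d M).F 1 ∧ Bf C P ξ h ∈ (wtF N d M).F 1

/-- [UNI] a group of sequences of unipotent matrices with polynomial entries, together with the
shift, is nilpotent. Proof: `Group.nilpotent_iff_finite_descending_central_series` (or its analogue)
with `H 0 = ⊤` and `H t = {x | x.s = 0 ∧ (x.u : AF) - 1 ∈ F t}` for `t ≥ 1`;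
`⁅x, y⁆` with `y ∈ H t`: the `s` component is `0`; the `u` component is
`x.u * sh (x.s) y.u * (x.u)⁻¹ * y.u⁻¹`; modulo `F (t+1)`: `sh n y - y ∈ F (t+1)` and
`(1 + a)(1 + b) = (1 + b)(1 + a)` for `a ∈ F 1`, `b ∈ F t`. The inverse of `1 + a` is in `1 + F 1`
(geometric series, `Filt`). -/
def S_UNI : Prop := ∀ (N d M : ℕ) (G : Subgroup (BG N d)),
  (∀ x ∈ G, (fun p => ((x.u p : (Mt N)ˣ) : Mt N)) - 1 ∈ (wtF N d M).F 1) → Group.IsNilpotent G

/-- [HHP] basic properties of `𝔥`: pointwise in `k` (and so strictly upper triangular), in `F 1` of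
the weight filtration, invariant under the shifts and the conjugation by `γ`.
Proof: all by `lieSp_le`; `γ ξ γ⁻¹ ∈ k` for `ξ ∈ k` by `exp_conj_eq` (`Mc` normalizes `k`). -/
def S_HHP : Prop := ∀ (N d M : ℕ) (C : Core N) (P : Fin d → Polynomial ℤ), 1 ≤ M →
  (∀ i, (P i).natDegree ≤ M) →
    (∀ x ∈ hh C P, ∀ p, x p ∈ C.k) ∧ (∀ x ∈ hh C P, x ∈ (wtF N d M).F 1) ∧
    (∀ x ∈ hh C P, ∀ n : ℤ, sh n x ∈ hh C P) ∧
    (∀ x ∈ hh C P, ∀ m : ℤ, (fun p => ((E C.Mc ^ m : (Mt N)ˣ) : Mt N) * x p *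
      ((E C.Mc ^ (-m) : (Mt N)ˣ) : Mt N)) ∈ hh C P) ∧
    FiniteDimensional ℝ (hh C P)

/-- [F4] the sequence `c = b⁻¹ S b` is `exp (B (Mg - Mc) + j)` with `j ∈ jj`.
Proof. By `Filt.bch` for `mF N` with `x = Mg`, `y = -Mc`:
`g ^ q γ ^ (-q) = exp (∑ n ∈ range (N + 1), q ^ n Z n)` for `q : ℤ`, `Z 0 = 0`, `Z 1 = Mg - Mc`. Let
`L h (l, i) = γ ^ p_i(l) (∑ n, (p_i(l+h) - p_i(l)) ^ n Z n) γ ^ (-p_i(l))`. Then
`exp (L h) (l, i) = b(l,i)⁻¹ b(l+h,i) =: c h`, `L h = ∑_{m ≥ 1} h ^ m z_m` (polynomial in `h`, `z_m : AF`),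
`z_1 = B (Mg - Mc) 0`, and `c (h + h') = c h * sh h (c h')`.
Claim: `L h ∈ 𝔥 + F t` for all `h` and all `t ≥ 1`. For `t = 1` clear (`c h - 1 ∈ F 1` or directly). Step: let
`T = 𝔥 + F t`, `J = 𝔥 + F (t+1)`: `[T, T] ⊆ J`, `(S - 1) T ⊆ J` so by `LieLat.exp_mul_add` and the
injectivity of `exp`, `L (h + h') = L h + L h'` modulo `J`, so `L h = h L 1` modulo `J`, so by
`vdm_mem` `z_1 - L 1 ∈ J`, and `z_1 ∈ 𝔥`, so `L 1 ∈ J` and `L h ∈ J`. As `F t = 0` for large `t`,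
`L h ∈ 𝔥`. Now the same argument with `T = 𝔥`, `J = jj`: `L 1 - z_1 ∈ jj`. -/
def S_F4 : Prop := S_ABM → S_HHP → S_SHF → ∀ (N d : ℕ) (C : Core N) (P : Fin d → Polynomial ℤ),
  ∃ j ∈ jj C P, ∀ p, (((z1 C P).u p : (Mt N)ˣ) : Mt N) =
    IsNilpotent.exp ((Bf C P (C.Mg - C.Mc) 0 + j) p)

/-- [G0] `g γ⁻¹ = exp ξ₀` with `ξ₀ ∈ k` and `ξ₀ = Mg - Mc` modulo the span of the brackets of `k` and
`[Mc, k]`. Proof: `LieLat.exp_mul_add` with `T = k + ℝ Mc`, `x = Mg`, `y = -Mc`. -/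
def S_G0 : Prop := ∀ (N : ℕ) (C : Core N), ∃ j ∈ Submodule.span ℝ
    ({x | ∃ u ∈ C.k, ∃ v ∈ C.k, x = u * v - v * u} ∪ {x | ∃ u ∈ C.k, x = C.Mc * u - u * C.Mc}),
  j ∈ C.k ∧ E C.Mg * (E C.Mc)⁻¹ = E (C.Mg - C.Mc + j)

/-- [GGM] the elements of `GG`. Proof: the set on the right is a subgroup (by `LieLat.exp_mul` for
`𝔥` in the algebra `AF` with the filtration `wtF`; `IsNilpotent.exp` in `AF` is pointwise by
`IsNilpotent.map_exp` and `Pi.evalRingHom`), and contains the generators; conversely clear. -/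
def S_GGM : Prop := S_HHP → ∀ (N d : ℕ) (C : Core N) (P : Fin d → Polynomial ℤ) (x : BG N d),
  x ∈ GG C P ↔ ∃ F ∈ hh C P, ∃ m : ℤ, ∀ p, x.u p = E (F p) * E C.Mc ^ m

/-- [NIL] `GG` is nilpotent. From `S_GGM`, `S_HHP`, `S_UNI`. -/
def S_NIL : Prop := S_HHP → S_GGM → S_UNI → ∀ (N d : ℕ) (C : Core N) (P : Fin d → Polynomial ℤ),
  Group.IsNilpotent (GG C P)

/-- [ZZ] `z1, z2` are in `GG`, they commute, and `GG` is generated by `z1`, `z2` and the elements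
with roots. Proof: `z1 = (exp of an element of 𝔥) S` by `S_F4`, `z2 = (exp A) γ̂` with
`b⁻¹ g b = γ ^ p (g γ⁻¹) γ ^ (-p) γ`, `g γ⁻¹ = exp ξ₀` (`S_G0`), `exp F = (exp (F / n)) ^ n` and
`exp (F / n) → 1` pointwise. -/
def S_ZZ : Prop := S_ABM → S_HHP → S_SHF → S_F4 → S_G0 → S_GGM →
  ∀ (N d : ℕ) (C : Core N) (P : Fin d → Polynomial ℤ),
  ∃ (h1 : z1 C P ∈ GG C P) (h2 : z2 C P ∈ GG C P),
    Commute (z1 C P) (z2 C P) ∧
    Subgroup.closure ({(⟨z1 C P, h1⟩ : GG C P), ⟨z2 C P, h2⟩} ∪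
      {c : GG C P | Pool.Agent.V11106.Rooted c}) = ⊤

/-! ### Compactness -/

/-- [CL] compactness modulo a group whose logarithms generate the Lie algebra.
Proof. `h^(1) = h`, `h^(j+1) = span [h, h^(j)]`, so `h^(j) ⊆ F j`, `h^(M+1)...= 0`,
`[h^(i), h^(j)] ⊆ h^(i+j)` (Jacobi). Claim 1: `h^(j) = span (L ∩ h^(j)) + h^(j+1)`: for `j = 1` because
`span s + [h, h]` is closed under the bracket; `j → j+1`: `h^(j+1)` is spanned modulo `h^(j+2)` by
`[a, y]`, `a ∈ s`, `y ∈ L ∩ h^(j)`, and `exp a exp y exp (-a) exp (-y) = exp ([a, y] + h^(j+2))` is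
`exp` of an element of `L` (`LieLat.exp_conj_eq`, `LieLat.exp_mul_add` with `J = h^(j+2)`).
Claim 2 (downward induction on `j`): every `exp x`, `x ∈ h^(j)`, is
`exp c_1 ... exp c_n exp y`, with `c_i` in a compact subset of `h` and `y ∈ L`: take `e_1..e_m ∈ L ∩ h^(j)` spanning `h^(j)`
modulo `h^(j+1)`, `x = ∑ t_i e_i + x'`, `t_i = ⌊t_i⌋ + fract t_i`; modulo the ideal `h^(j+1)`
everything commutes so `exp x = exp (∑ fract t_i • e_i) * exp x'' * ∏ exp (⌊t_i⌋ e_i)` with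
`x'' ∈ h^(j+1)`. -/
def S_CL : Prop := ∀ (N d M : ℕ) (h : Submodule ℝ (AF N d)), FiniteDimensional ℝ h →
  (∀ x ∈ h, x ∈ (wtF N d M).F 1) →
  ∀ (s L : Set (AF N d)), h = lieSp s → s ⊆ L → (∀ x ∈ L, x ∈ h) → (0 : AF N d) ∈ L →
  (∀ x ∈ L, -x ∈ L) →
  (∀ x ∈ L, ∀ y ∈ L, ∃ z ∈ L, IsNilpotent.exp x * IsNilpotent.exp y = IsNilpotent.exp z) →
  ∃ (n : ℕ) (K : Set (AF N d)), IsCompact K ∧ (∀ x ∈ K, x ∈ h) ∧ ∀ x ∈ h,
    ∃ (c : Fin n → AF N d) (y : AF N d), (∀ i, c i ∈ K) ∧ y ∈ L ∧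
      IsNilpotent.exp x = (List.ofFn fun i => IsNilpotent.exp (c i)).prod * IsNilpotent.exp y

/-- [GEN] the logarithms of the stabilizer span `k`. Proof: `log_mem_span` (J887): for `x ∈ k` and
`n`, `E (n x) • x0 = E c • x0` with `c` bounded, `γ = E (-n x) E c` is in the stabilizer. Apply it
to the group `Γ = {u ∈ St x0 | ∃ ξ ∈ k, u = E ξ}` (a subgroup by `LieLat.exp_mul`). -/
def S_GEN : Prop := ∀ (N : ℕ) (C : Core N) (H : Subgroup (Mt N)ˣ) (X : Type) [TopologicalSpace X]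
  [MulAction H X] (x0 : X), Dyn C H X x0 →
  C.k ≤ Submodule.span ℝ {ξ | ξ ∈ C.k ∧ E ξ ∈ St (H := H) x0}

/-- [CPT] `GG / Lam` is compact. Proof: `𝔥 = lieSp s` with `s = {A ξ h, B ξ h | ξ ∈ k, E ξ ∈ St x0}` by
`S_GEN` (`A`, `B` are linear in `ξ`), `L = {F ∈ 𝔥 | ∀ p, E (F p) ∈ St x0}`; `s ⊆ L` because
`γ ∈ St x0` and `exp (p' ξ) = (exp ξ) ^ p'`. `S_CL` gives `exp 𝔥 = (compact) exp L`. Then
`x = exp F γ̂^m S^n = (compact) exp y γ̂^m S^n`, and `n = k q + r`, `0 ≤ r < k`,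
`exp y γ̂^m S^n = S^r (S^(-r) exp y γ̂^m S^(n)) `, with `S^(-r) exp y S^r` in `exp L`. The compact set is
`⋃_{r<k} (∏ exp c_i) S^r`. (`γ̂` commutes with `S`.) -/
def S_CPT : Prop := S_HHP → S_ABM → S_GGM → S_CL → S_GEN →
  ∀ (N d : ℕ) (C : Core N) (P : Fin d → Polynomial ℤ)
  (H : Subgroup (Mt N)ˣ) (X : Type) [TopologicalSpace X] [MulAction H X] (x0 : X), Dyn C H X x0 →
  ∀ k : ℕ, 0 < k → ∃ K : Set (GG C P), IsCompact K ∧
    ∀ x : GG C P, ∃ a ∈ K, ∃ l ∈ Lam C P (H := H) x0 k, x = a * l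

/-- [CLO] `Lam` is closed. The map `GG → H`, `x ↦ x.u p` (well-defined: `F p ∈ k`) is continuous, and the stabilizer
is closed (`X` Hausdorff); `x ↦ x.s` is locally constant. -/
def S_CLO : Prop := S_HHP → S_GGM → ∀ (N d : ℕ) (C : Core N) (P : Fin d → Polynomial ℤ)
  (H : Subgroup (Mt N)ˣ) (X : Type) [TopologicalSpace X] [T2Space X] [MulAction H X]
  [ContinuousSMul H X] (x0 : X), Dyn C H X x0 →
  ∀ k : ℕ, IsClosed (Lam C P (H := H) x0 k : Set (GG C P))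

/-! ### Characters -/

/-- [ADD] a continuous character of `GG` restricted to `exp 𝔥` is additive and kills `jj`.
Proof: Trotter: by `Filt.bch` `(exp (x/n) exp (y/n)) ^ n = exp (n • ∑_k n^(-k) Z_k) → exp (x + y)`
pointwise; invariance under conjugation by `exp (n x)` and `vdm_mem` gives `f (vdm • [x, y]) = 1`,
replace `x` by `x / vdm`; `S exp x S⁻¹ = exp (S x)` gives `f (S x - x) = 1`. -/
def S_ADD : Prop := S_HHP → S_GGM → ∀ (N d : ℕ) (C : Core N) (P : Fin d → Polynomial ℤ)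
  (χ : GG C P →* Circle), Continuous χ → ∃ f : AF N d → Circle,
    (∀ (x : AF N d), x ∈ hh C P → ∀ g : GG C P, (g : BG N d) = ⟨fun p => E (x p), 0⟩ →
      χ g = f x) ∧
    (∀ x ∈ hh C P, ∀ y ∈ hh C P, f (x + y) = f x * f y) ∧
    (∀ x ∈ jj C P, f x = 1)

/-- [CHI] no characters. Proof: let `f` be as in `S_ADD`.
(1) `Φ ξ = f (A ξ 0)`, `ξ ∈ k`: additive, `= 1` for `E ξ ∈ St x0`, kills brackets
(`A [ξ, η] = [A ξ, A η]`), invariant under `γ` (`γ̂ ∈ Lam`), and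
`χ z2 = Φ ξ₀ χ γ̂ = Φ ξ₀` (`E ξ₀ = g γ⁻¹`). The function `F (E ξ • x0) = Φ ξ` on `X` is well defined
(`E ξ E η = E (ξ + η + brackets)`), continuous (`X` is a quotient of the compact set
`{ξ ∈ k | |ξ i j| ≤ R}`), and `F (g • x) = Φ ξ₀ F x = F x`; by minimality `F` is constant, so `Φ = 1`.
(2) `θ ξ = f (B ξ 0)`: additive on `k`, `= 1` for `E ξ ∈ St x0` (`exp (p' ξ) = (exp ξ)^p'`), kills
brackets (`B [ξ, η] = [B ξ, A η]`) and `[Mc, k]` (`f (B (γ ξ γ⁻¹)) = f (B ξ)`, `vdm_mem`). `F' (E ξ • x0) = θ ξ`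
is well defined, continuous, `F' (g • x) = θ ξ₀ F' x`, `θ ξ₀ = θ (Mg - Mc)` (`S_G0`) `= χ (z1 S⁻¹)`
(`S_F4`) `= (χ S)⁻¹` and `(χ S) ^ k = 1` as `S ^ k ∈ Lam`. So `F' ^ k` is invariant, constant, `θ ^ k = 1`, so
`θ ξ = θ (ξ / k) ^ k = 1` and `χ S = 1`.
(3) `f (A ξ h) = f (A ξ 0) = 1`, `f (B ξ h) = 1` (`A ξ h = sh h (A ξ 0)`, `jj`), and `f` kills brackets so
`f = 1` on `𝔥` (which is the span of the `A`, `B` and the brackets), so `χ = 1` on the generators. -/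
def S_CHI : Prop := S_HHP → S_GGM → S_ADD → S_G0 → S_F4 → S_ABM → S_SHF → S_GEN →
  ∀ (N d : ℕ) (C : Core N) (P : Fin d → Polynomial ℤ)
  (H : Subgroup (Mt N)ˣ) (X : Type) [TopologicalSpace X] [CompactSpace X] [T2Space X] [MulAction H X]
  [ContinuousSMul H X] (x0 : X), Dyn C H X x0 →
  ∀ k : ℕ, 0 < k → ∀ χ : GG C P →* Circle, Continuous χ →
  (∀ l ∈ Lam C P (H := H) x0 k, χ l = 1) →
  (∀ g : GG C P, (g : BG N d) = z1 C P → χ g = 1) →
  (∀ g : GG C P, (g : BG N d) = z2 C P → χ g = 1) → χ = 1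

/-! ### The theorem of Green and Parry -/

/-- the closed subgroup generated by a term of the lower central series and `Λ` -/
def PP {G : Type*} [Group G] [TopologicalSpace G] [IsTopologicalGroup G] (Λ : Subgroup G) (r : ℕ) :
    Subgroup G := (Pool.Agent.V11106.LC G r ⊔ Λ).topologicalClosure

/-- a closed set invariant under `z₁`, `z₂` on the left and a subgroup on the right -/
structure Inv {G : Type*} [Group G] [TopologicalSpace G] (z₁ z₂ : G) (Q : Subgroup G) (M : Set G) :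
    Prop where
  closed : IsClosed M
  right : ∀ m ∈ M, ∀ q ∈ Q, m * q ∈ M
  left1 : ∀ m ∈ M, z₁ * m ∈ M ∧ z₁⁻¹ * m ∈ M
  left2 : ∀ m ∈ M, z₂ * m ∈ M ∧ z₂⁻¹ * m ∈ M

/-- [GP1] an eigenfunction from a proper minimal set.
Proof. `Q = PP Λ (r+1) ≤ P = PP Λ r`; `P` normalizes `Q` and `[P, P] ≤ Q` (because `⁅L_r, G⁆ ≤ L_(r+1)`,
`Λ ≤ Q`; closures). Take (Zorn, compactness) a minimal nonempty `E` with `Inv z₁ z₂ Q E` (start from
`M`). For `p ∈ P`, `E p` is again minimal, so `E p = E` or disjoint. `B = {p ∈ P | E p = E}` closed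
subgroup containing `Q`; `E P` is closed (`G / Q` is compact, `P / Q` is compact) so it is
everything by `hr`. `B ≠ P` as `E ≠ univ`. `P / B` is a compact Hausdorff abelian group with a non-trivial
character `χ` (`Helper472...chars`). `f (e p) = χ p`. Continuity: the preimage of a closed `T` is
`E · {p | χ p ∈ T}`, which is closed by compactness (the image of a compact set under the continuous action
`G/Q × P/Q → G/Q`). -/
def S_GP1 : Prop := ∀ (G : Type) [Group G] [TopologicalSpace G] [IsTopologicalGroup G] [T2Space G]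
  (Λ : Subgroup G) (K : Set G), IsCompact K → (∀ g : G, ∃ a ∈ K, ∃ l ∈ Λ, g = a * l) →
  ∀ (z₁ z₂ : G) (r : ℕ), (∀ M : Set G, M.Nonempty → Inv z₁ z₂ (PP Λ r) M → M = Set.univ) →
  ∀ M : Set G, M.Nonempty → Inv z₁ z₂ (PP Λ (r + 1)) M → M ≠ Set.univ →
  ∃ (f χ : G → Circle), Continuous f ∧ (∀ g, f (z₁ * g) = f g) ∧ (∀ g, f (z₂ * g) = f g) ∧
    (∀ g, ∀ q ∈ PP Λ (r + 1), f (g * q) = f g) ∧ (∀ g, ∀ p ∈ PP Λ r, f (g * p) = χ p * f g) ∧
    ∃ p ∈ PP Λ r, χ p ≠ 1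

/-- [QR2] quasi-roots with two commuting elements (compare `V11106.qr_of_gen`; the new case in the
generators uses the Hall-Witt identity: `⁅a, ⁅b, p⁆⁆ = ⁅b, ⁅a, p⁆⁆` modulo `L (m + 3)` if `a`, `b`
commute and `p ∈ L m`). -/
def S_QR2 : Prop := ∀ (G : Type) [Group G] [TopologicalSpace G] [IsTopologicalGroup G] (z₁ z₂ : G),
  Commute z₁ z₂ → Subgroup.closure ({z₁, z₂} ∪ {c : G | Pool.Agent.V11106.Rooted c}) = ⊤ →
  ∀ (m : ℕ) (u : G), u ∈ Pool.Agent.V11106.LC G m →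
    Pool.Agent.V11106.QR z₁ m u ∧ Pool.Agent.V11106.QR z₂ m u

/-- [GP2] the eigenfunction is an eigenfunction of the whole group.
Proof. Let `V = {v | ∃ c, ∀ g, f (v g) = c f g}` with the character `η`. `L_r ≤ V` (`l g = g l [l⁻¹, g⁻¹]`
and `[l⁻¹, g⁻¹] ∈ L_(r+1)`, so `f (l g) = χ l f g`), with `η [g, l] = 1` for all `g : G`, `l ∈ L_r`.
Downward induction on `m`: if `L_(m+1) ≤ V` and `η [g, l] = 1` for all `g` and `l ∈ L_(m+1)`, the same
holds for `m`. For `v ∈ L_m`, `D_v g = f (v g) / f g` satisfies `D_v (z g) = η [v, z] D_v g`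
(`z = z₁, z₂`). If `v` is small, `|D_v g - 1| < 1` for all `g` (compactness: `f` is right
`Λ`-invariant, `G = K Λ`), so `η [v, z] ^ n` stays near `1` for all `n`, so `η [v, z] = 1`. By the
quasi-roots `η [z, v] = η [z, f_n] ^ n = 1` for every `v ∈ L_m` (`η = 1` on `L_(m+2)`). So `D_v` is
invariant under `z₁, z₂` and right invariant under `PP Λ r`, so it is constant by `hr` (level sets).
So `v ∈ V`. For `η [g, v] = 1`: `g ↦ η [g, v]` is a homomorphism, trivial for `z₁, z₂`, and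
for `ρ` small `D_ρ (v ^ n g) = η [ρ, v] ^ n D_ρ g`, so `η [ρ, v] = 1` for small `ρ`, so for rooted `ρ`.
At `m = 0` get `V = ⊤`. -/
def S_GP2 : Prop := S_QR2 → ∀ (G : Type) [Group G] [TopologicalSpace G] [IsTopologicalGroup G]
  [T2Space G]
  (Λ : Subgroup G) (K : Set G), IsCompact K → (∀ g : G, ∃ a ∈ K, ∃ l ∈ Λ, g = a * l) →
  ∀ (z₁ z₂ : G), Commute z₁ z₂ →
  Subgroup.closure ({z₁, z₂} ∪ {c : G | Pool.Agent.V11106.Rooted c}) = ⊤ → ∀ r : ℕ,
  (∀ M : Set G, M.Nonempty → Inv z₁ z₂ (PP Λ r) M → M = Set.univ) →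
  ∀ (f χ : G → Circle), Continuous f → (∀ g, f (z₁ * g) = f g) → (∀ g, f (z₂ * g) = f g) →
    (∀ g, ∀ q ∈ PP Λ (r + 1), f (g * q) = f g) → (∀ g, ∀ p ∈ PP Λ r, f (g * p) = χ p * f g) →
    ∃ η : G →* Circle, Continuous η ∧ ∀ v g, f (v * g) = η v * f g

/-- [GP] minimality. Proof: induction on `r`: every nonempty `M` with `Inv z₁ z₂ (PP Λ r) M` is
everything. `r = 0`: `PP Λ 0 = ⊤`. Step: if not, `S_GP1` and `S_GP2` give `η`, with `η z_i = 1`, `η l = 1` for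
`l ∈ Λ` (`f (l * 1) = η l f 1`, `f (1 * l) = f 1`), so `η = 1`, so `f` is constant, against
`χ p ≠ 1`. For `r` large `PP Λ r = closure Λ = Λ`. -/
def S_GP : Prop := S_GP1 → S_GP2 → S_QR2 →
  ∀ (G : Type) [Group G] [TopologicalSpace G] [IsTopologicalGroup G]
  [T2Space G] [Group.IsNilpotent G]
  (Λ : Subgroup G), IsClosed (Λ : Set G) →
  ∀ K : Set G, IsCompact K → (∀ g : G, ∃ a ∈ K, ∃ l ∈ Λ, g = a * l) →
  ∀ (z₁ z₂ : G), Commute z₁ z₂ →
  Subgroup.closure ({z₁, z₂} ∪ {c : G | Pool.Agent.V11106.Rooted c}) = ⊤ →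
  (∀ χ : G →* Circle, Continuous χ → (∀ l ∈ Λ, χ l = 1) → χ z₁ = 1 → χ z₂ = 1 → χ = 1) →
  ∀ M : Set G, M.Nonempty → Inv z₁ z₂ Λ M → M = Set.univ

/-! ### The end -/

/-- [FIN] the dynamical statement for matrices. `x = g ^ m • x0`.
Proof. Add the polynomial `0` to the family (`Fin (d+1)`), `k` as given. `M = ⋂_n closure {z1 ^ a z2 ^ b l |
a ≥ n, l ∈ Lam}` is nonempty by compactness and `Inv`; by `S_GP` it is everything. The set
`O = {x : GG | ∀ i, x.u (0, i) • x0 ∈ U, x.s ≡ j mod k}` is open and nonempty (it contains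
`exp (A ξ 0) S ^ j`, `E ξ • x0 ∈ U`). So there are `a ≥ k + j + 1`, `b`, `l` with
`z1 ^ a z2 ^ b l ∈ O`; then `a ≡ j`, and `(z1 ^ a z2 ^ b).u (0, i) • x0 = g ^ (b + p_i(a)) • x0`
(`z1 ^ a z2 ^ b = β⁻¹ (g^b, S^a) β`, `β = (b, 0)`, `b (0, i) = 1`, `γ • x0 = x0`). -/
def S_FIN : Prop := S_HHP → S_GGM → S_NIL → S_ZZ → S_CPT → S_CLO → S_CHI → S_GP →
  ∀ (N : ℕ) (C : Core N) (H : Subgroup (Mt N)ˣ) (X : Type) [TopologicalSpace X] [CompactSpace X]
  [T2Space X] [MulAction H X] [ContinuousSMul H X] (x0 : X) (D : Dyn C H X x0)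
  (d : ℕ) (P : Fin d → Polynomial ℤ), (∀ i, (P i).eval 0 = 0) → ∀ k : ℕ, 0 < k → ∀ j : ℕ, j < k →
  ∀ U : Set X, IsOpen U → U.Nonempty → ∃ n : ℕ, 0 < n ∧ ∃ x ∈ U, ∀ i,
    (⟨E C.Mg, D.memg⟩ : H) ^ ((P i).eval ((k : ℤ) * (n : ℤ) + (j : ℤ))) • x ∈ U

/-- [RED] the data `Core`, `Dyn` for a totally minimal nilsystem of a nilpotent Lie group.
Proof. Follow `lie_model` and `model_of_facts` (`TH91/LG/Asm.lean`, `TH515/J1261.lean`): a nilpotent Lie group has a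
`LieStr L`, for `g : G` there is `NilRepD` `R` with `R.M` the logarithm of the matrix of `g`, the
relation `{(exp (ρ X) m ^ n, c X 1 * g ^ n)}` is a homomorphism `φ : H →* G`, continuous, open.
`k = range R.ρ`, `Mg = R.M`. `K = {c X 1}` is an open normal subgroup of `G` (the image of
`exp k`), its orbits on `G ⧸ Γ` are open, `g` permutes them, there are finitely many (compactness), so
some `g ^ q`, `q ≥ 1`, fixes one (`q` = factorial of the number...), it is closed and `g ^ q` is minimal so it is everything. So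
`g • x0 = c X0 1 • x0`, `Mc = log (exp (-ρ X0) exp (R.M)) ∈ R.M + k`. `bdd`: `X` is covered by the
open sets `{c X 1 • x0 | ‖X‖ < R}`; compactness. `X = G ⧸ Γ` with the action through `φ`. -/
def S_RED : Prop := ∀ (E' : Type) [NormedAddCommGroup E'] [NormedSpace ℝ E'] [FiniteDimensional ℝ E']
    (G : Type) [Group G] [TopologicalSpace G] [ChartedSpace E' G]
    [LieGroup (modelWithCornersSelf ℝ E') ((⊤ : ℕ∞) : WithTop ℕ∞) G] [Group.IsNilpotent G]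
    (Γ : Subgroup G), DiscreteTopology Γ → CompactSpace (G ⧸ Γ) →
    ∀ g : G, (∀ m : ℕ, 0 < m → ∀ x : G ⧸ Γ,
        Dense (Set.range (fun n : ℤ => (g ^ m) ^ n • x))) →
    T2Space (G ⧸ Γ) ∧
    ∃ (N : ℕ) (C : Core N) (H : Subgroup (Mt N)ˣ) (φ : H →* G) (hφ : Continuous φ)
      (hg : E C.Mg ∈ H), φ ⟨E C.Mg, hg⟩ = g ∧
      ∃ x0 : G ⧸ Γ, @Dyn N C H (G ⧸ Γ) _ (MulAction.compHom (G ⧸ Γ) φ) x0

end Run7.h664.NL
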