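import Pool.Agent.Run7.h664.NL.RED1

/-!
# Piece RED
-/

set_option autoImplicit false

namespace Run7.h664.NL

open Topology Filter Pool.Agent.TH91.LG Pool.Agent Pool.Agent.TH91.RF Pool.Agent.TH91.NB
open Pool.Agent.TH91.LG.J1261
open scoped ContDiff Manifold

/-- a normal subgroup with open orbits is transitive if all the powers of an element are minimal -/
theorem orb_univ {H X : Type*} [Group H] [TopologicalSpace X] [CompactSpace X] [MulAction H X]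
    (K : Subgroup H) (g : H) (hn : ∀ (n : ℤ), ∀ k ∈ K, g ^ n * k * (g ^ n)⁻¹ ∈ K)
    (hopen : ∀ x : X, IsOpen {y | ∃ k ∈ K, k • x = y})
    (hmin : ∀ m : ℕ, 0 < m → ∀ x : X, Dense (Set.range fun n : ℤ => (g ^ m) ^ n • x)) (x0 : X) :
    ∀ y, ∃ k ∈ K, k • x0 = y := by
  have hn' : ∀ (n : ℤ), ∀ k ∈ K, ∃ k' ∈ K, g ^ n * k = k' * g ^ n := by
    intro n k hk
    exact ⟨_, hn n k hk, by group⟩
  -- a positive power preserving the orbit
  obtain ⟨q, hq, kq, hkq, hkq2⟩ : ∃ q : ℕ, 0 < q ∧ ∃ k ∈ K, k • x0 = g ^ q • x0 := by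
    obtain ⟨y, hy⟩ : ∃ y : X, MapClusterPt y atTop (fun n : ℕ => g ^ n • x0) :=
      exists_clusterPt_of_compactSpace _
    have hmem : {z | ∃ k ∈ K, k • y = z} ∈ 𝓝 y := (hopen y).mem_nhds ⟨1, K.one_mem, one_smul _ _⟩
    have hf := hy.frequently hmem
    obtain ⟨a, -, ka, hka, hka2⟩ := frequently_atTop.1 hf 0
    obtain ⟨b, hb, kb, hkb, hkb2⟩ := frequently_atTop.1 hf (a + 1)
    refine ⟨b - a, by omega, ?_⟩
    have h1 : (g ^ b : H) = g ^ a * g ^ (b - a) := by rw [← pow_add]; congr 1; omega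
    have h2 : g ^ b • x0 = (kb * ka⁻¹) • g ^ a • x0 := by
      rw [← hkb2, ← hka2, mul_smul, inv_smul_smul]
    obtain ⟨k', hk', hk2⟩ := hn' (-(a : ℤ)) (kb * ka⁻¹) (K.mul_mem hkb (K.inv_mem hka))
    refine ⟨k', hk', ?_⟩
    have h3 : g ^ (b - a) • x0 = (g ^ a)⁻¹ • g ^ b • x0 := by
      rw [h1, mul_smul, inv_smul_smul]
    have h4 : (g ^ a)⁻¹ = g ^ (-(a : ℤ)) := by rw [zpow_neg, zpow_natCast]
    rw [h3, h2, h4, ← mul_smul, hk2, mul_smul, ← h4, inv_smul_smul]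
  set O : Set X := {y | ∃ k ∈ K, k • x0 = y} with hO
  have hm : ∀ n : ℕ, (g ^ q) ^ n • x0 ∈ O ∧ ((g ^ q) ^ n)⁻¹ • x0 ∈ O := by
    intro n
    induction n with
    | zero => simpa using ⟨1, K.one_mem, by simp⟩
    | succ n ih =>
      obtain ⟨⟨k, hk, hk2⟩, ⟨l, hl, hl2⟩⟩ := ih
      constructor
      · obtain ⟨k', hk', hk3⟩ := hn' q k hk
        refine ⟨k' * kq, K.mul_mem hk' hkq, ?_⟩
        rw [mul_smul, hkq2, pow_succ', mul_smul ((g : H) ^ q), ← hk2, ← mul_smul, ← mul_smul]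
        rw [zpow_natCast] at hk3
        rw [hk3]
      · have h1 : (((g ^ q) ^ (n + 1))⁻¹ : H) = (g ^ q)⁻¹ * ((g ^ q) ^ n)⁻¹ := by
          rw [pow_succ, mul_inv_rev]
        have h4 : ((g ^ q)⁻¹ : H) = g ^ (-(q : ℤ)) := by rw [zpow_neg, zpow_natCast]
        obtain ⟨l', hl', hl3⟩ := hn' (-(q : ℤ)) l hl
        obtain ⟨k', hk', hk3⟩ := hn' (-(q : ℤ)) kq hkq
        refine ⟨l' * k'⁻¹, K.mul_mem hl' (K.inv_mem hk'), ?_⟩
        have h5 : k' • g ^ (-(q : ℤ)) • x0 = x0 := by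
          rw [← mul_smul, ← hk3, mul_smul, hkq2, ← h4, inv_smul_smul]
        have h6 : k'⁻¹ • x0 = g ^ (-(q : ℤ)) • x0 := by
          rw [inv_smul_eq_iff, h5]
        rw [mul_smul, h6, h1, mul_smul, ← hl2, h4, ← mul_smul, ← mul_smul, hl3]
  have hz : Set.range (fun n : ℤ => (g ^ q) ^ n • x0) ⊆ O := by
    rintro _ ⟨n, rfl⟩
    rcases n with n | n
    · simpa using (hm n).1
    · simpa [zpow_negSucc] using (hm (n + 1)).2
  have hcl : IsClosed O := by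
    rw [← isOpen_compl_iff, isOpen_iff_mem_nhds]
    intro y hy
    refine mem_of_superset ((hopen y).mem_nhds ⟨1, K.one_mem, one_smul _ _⟩) ?_
    rintro z ⟨k, hk, rfl⟩ ⟨l, hl, hl2⟩
    exact hy ⟨k⁻¹ * l, K.mul_mem (K.inv_mem hk) hl, by rw [mul_smul, hl2, inv_smul_smul]⟩
  have h1 := (hmin q hq x0).mono hz
  have h2 : O = Set.univ := by
    rw [← hcl.closure_eq]
    exact h1.closure_eq
  intro y
  have : y ∈ O := by rw [h2]; trivial
  exact this

/-- a topological group with charts is Hausdorff -/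
theorem t2_of_charts {E : Type*} [NormedAddCommGroup E] {G : Type*} [Group G]
    [TopologicalSpace G] [IsTopologicalGroup G] [ChartedSpace E G] : T2Space G := by
  have h0 : T0Space G := by
    refine ⟨fun x y hxy => ?_⟩
    have h1 : x ∈ (chartAt E x).source := mem_chart_source E x
    have h2 : y ∈ (chartAt E x).source :=
      (hxy.mem_open_iff (chartAt E x).open_source).1 h1
    have h3 : Inseparable (chartAt E x x) (chartAt E x y) := by
      have := (chartAt E x).continuousAt h1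
      have h4 := (chartAt E x).continuousAt h2
      rw [Inseparable]
      have hxy' : 𝓝 x = 𝓝 y := hxy
      by_contra hne
      have hne' : chartAt E x x ≠ chartAt E x y := fun h => hne (by rw [h])
      obtain ⟨u, v, hu, hv, hxu, hyv, huv⟩ := t2_separation hne'
      have h5 : chartAt E x ⁻¹' u ∈ 𝓝 x := this (hu.mem_nhds hxu)
      rw [hxy'] at h5
      have h6 : y ∈ chartAt E x ⁻¹' u := mem_of_mem_nhds h5
      exact (Set.disjoint_left.1 huv h6 hyv).elim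
    have h4 : chartAt E x x = chartAt E x y := h3.eq
    exact (chartAt E x).injOn h1 h2 h4
  infer_instance

theorem t_RED : S_RED := by
  intro E' _ _ _ G _ _ _ _ _ Γ hdisc hcomp g hmin
  have : IsTopologicalGroup G :=
    topologicalGroup_of_lieGroup (modelWithCornersSelf ℝ E') ((⊤ : ℕ∞) : WithTop ℕ∞)
  have : T2Space G := t2_of_charts (E := E')
  have := hdisc
  have := hcomp
  have : IsClosed (Γ : Set G) := Subgroup.isClosed_of_discrete
  have hT2 : T2Space (G ⧸ Γ) := inferInstance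
  refine ⟨hT2, ?_⟩
  obtain ⟨L0⟩ := Pool.Agent.TH959.J1254.exists_locLie E' G
  obtain ⟨L⟩ := L0.exists_lieStr
  have hB : NilLie L.ad := L.nilLie
  obtain ⟨N0, ⟨R0⟩⟩ := exists_nilRep_univ E' L.ad hB
  obtain ⟨D, hD1, hD2, hD3⟩ := Pool.Agent.TH558.J1262.log_aut L.ad (L.Ad g) (L.Ad_nil g)
    (fun x y => L.Ad_ad g x y)
  obtain ⟨N, ⟨R⟩⟩ := R0.extend hB D hD1 hD2
  have hf := hom_facts L (fun g X t => L.conj_c g X t) (fun a X t => L.c_smul a X t)
    (fun X t => L.Ad_c X t) hB R.toNilRep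
  obtain ⟨H, φ, hm, he, hφc, hφo, hφm, hφe, hop, hmul, hcj⟩ :=
    model2 L g (fun g X t => L.conj_c g X t) (fun a X t => L.c_smul a X t) D hD1 hD3
      R hf.1 hf.2.1 hf.2.2
  letI act : MulAction H (G ⧸ Γ) := MulAction.compHom (G ⧸ Γ) φ
  have hact : ∀ (h : H) (x : G ⧸ Γ), h • x = φ h • x := fun _ _ => rfl
  -- exponentials
  have hEρ : ∀ X, E (R.ρ X) = ue (R.ρ X) (rho_mem R X) := fun X =>
    Units.ext (by rw [E_val (rho_mem R X), ue_val])
  have hEM : E R.M = ue R.M (M_mem R) := Units.ext (by rw [E_val (M_mem R), ue_val])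
  have hinv : ∀ X, (ue (R.ρ X) (rho_mem R X))⁻¹ = ue (R.ρ (-X)) (rho_mem R (-X)) := by
    intro X
    apply Units.ext
    rw [ue_inv_val, ue_val, map_neg]
  have hone : ue (R.ρ 0) (rho_mem R 0) = 1 := by
    apply Units.ext
    rw [ue_val, map_zero, IsNilpotent.exp_zero, Units.val_one]
  let K : Subgroup H :=
    { carrier := {h | ∃ X, (h : (Mt N)ˣ) = ue (R.ρ X) (rho_mem R X)}
      one_mem' := ⟨0, by rw [hone]; rfl⟩
      mul_mem' := by
        rintro a b ⟨X, hX⟩ ⟨Y, hY⟩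
        obtain ⟨Z, hZ⟩ := hmul X Y
        exact ⟨Z, by rw [Subgroup.coe_mul, hX, hY, hZ]⟩
      inv_mem' := by
        rintro a ⟨X, hX⟩
        exact ⟨-X, by rw [Subgroup.coe_inv, hX, hinv]⟩ }
  let Kr : ℝ → Set H := fun r => {h : H | ∃ X, (∀ i j, |R.ρ X i j| < r) ∧
        (h : (Matrix (Fin N) (Fin N) ℝ)ˣ) = ue (R.ρ X) (rho_mem R X)}
  have hKr : ∀ (r : ℝ) (x : G ⧸ Γ), IsOpen {y | ∃ k ∈ Kr r, k • x = y} := by
    intro r x
    induction x using QuotientGroup.induction_on with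
    | H a =>
      have h1 : IsOpen (φ '' Kr r) := hφo _ (hop r)
      have h2 : {y | ∃ k ∈ Kr r, k • (QuotientGroup.mk a : G ⧸ Γ) = y} =
          (QuotientGroup.mk : G → G ⧸ Γ) '' ((fun b => b * a) '' (φ '' Kr r)) := by
        ext y
        constructor
        · rintro ⟨k, hk, rfl⟩
          exact ⟨φ k * a, ⟨φ k, ⟨k, hk, rfl⟩, rfl⟩, rfl⟩
        · rintro ⟨_, ⟨_, ⟨k, hk, rfl⟩, rfl⟩, rfl⟩
          exact ⟨k, hk, rfl⟩
      rw [h2]
      exact QuotientGroup.isOpenMap_coe _ (isOpenMap_mul_right a _ h1)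
  have hKex : ∀ k ∈ K, ∃ r : ℕ, k ∈ Kr r := by
    rintro k ⟨X, hX⟩
    obtain ⟨r, hr⟩ := exists_nat_gt (∑ i, ∑ j, |R.ρ X i j|)
    refine ⟨r, X, fun i j => lt_of_le_of_lt ?_ hr, hX⟩
    calc |R.ρ X i j| ≤ ∑ j, |R.ρ X i j| :=
          Finset.single_le_sum (f := fun j => |R.ρ X i j|) (fun _ _ => abs_nonneg _)
            (Finset.mem_univ j)
      _ ≤ _ := Finset.single_le_sum (f := fun i => ∑ j, |R.ρ X i j|)
            (fun _ _ => Finset.sum_nonneg fun _ _ => abs_nonneg _) (Finset.mem_univ i)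
  have hKo : ∀ x : G ⧸ Γ, IsOpen {y | ∃ k ∈ K, k • x = y} := by
    intro x
    have h1 : {y | ∃ k ∈ K, k • x = y} = ⋃ r : ℕ, {y | ∃ k ∈ Kr r, k • x = y} := by
      ext y
      rw [Set.mem_iUnion]
      constructor
      · rintro ⟨k, hk, rfl⟩
        obtain ⟨r, hr⟩ := hKex k hk
        exact ⟨r, k, hr, rfl⟩
      · rintro ⟨r, k, ⟨X, -, hX⟩, rfl⟩
        exact ⟨k, ⟨X, hX⟩, rfl⟩
    rw [h1]
    exact isOpen_iUnion fun r => hKr r x
  have htrans := orb_univ (X := G ⧸ Γ) K (⟨ue R.M (M_mem R), hm⟩ : H) (by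
    rintro n k ⟨X, hX⟩
    obtain ⟨Y, hY⟩ := hcj n X
    refine ⟨Y, ?_⟩
    rw [Subgroup.coe_mul, Subgroup.coe_mul, Subgroup.coe_inv, SubgroupClass.coe_zpow, hX]
    exact hY) hKo (by
    intro m hm0 x
    have h1 := hmin m hm0 x
    have h2 : (fun n : ℤ => ((⟨ue R.M (M_mem R), hm⟩ : H) ^ m) ^ n • x) =
        fun n : ℤ => (g ^ m) ^ n • x := by
      funext n
      rw [hact, map_zpow, map_pow, hφm]
    rw [h2]
    exact h1)
  let x0 : G ⧸ Γ := QuotientGroup.mk (1 : G)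
  -- the element fixing the base point
  obtain ⟨k0, ⟨X0, hX0⟩, hk0⟩ := htrans x0 ((⟨ue R.M (M_mem R), hm⟩ : H) • x0)
  obtain ⟨X', hX'⟩ := exp_mul_form R (-X0) 1
  have hMcF : R.ρ X' + R.M ∈ (mF N).F 1 := Submodule.add_mem _ (rho_mem R X') (M_mem R)
  have hEMc : E (R.ρ X' + R.M) = (ue (R.ρ X0) (rho_mem R X0))⁻¹ * ue R.M (M_mem R) := by
    apply Units.ext
    rw [E_val hMcF, Units.val_mul, hinv, ue_val, ue_val]
    rw [one_smul] at hX'
    exact hX'.symm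
  let C : Core N :=
    { k := LinearMap.range R.ρ
      sup := by
        rintro _ ⟨X, rfl⟩
        exact rho_mem R X
      br := by
        rintro _ ⟨X, rfl⟩ _ ⟨Y, rfl⟩
        exact ⟨L.ad X Y, R.br X Y⟩
      Mc := R.ρ X' + R.M
      supMc := hMcF
      brMc := by
        rintro _ ⟨X, rfl⟩
        refine ⟨L.ad X' X + D X, ?_⟩
        rw [map_add, R.br, R.der]
        noncomm_ring
      Mg := R.M
      supMg := M_mem R
      diff := ⟨-X', by rw [map_neg]; abel⟩ }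
  have hmemc : E C.Mc ∈ H := by
    change E (R.ρ X' + R.M) ∈ H
    rw [hEMc]
    exact H.mul_mem (H.inv_mem (he X0)) hm
  have hmemg : E C.Mg ∈ H := by
    change E R.M ∈ H
    rw [hEM]
    exact hm
  have hgeq : (⟨E C.Mg, hmemg⟩ : H) = ⟨ue R.M (M_mem R), hm⟩ := Subtype.ext hEM
  refine ⟨N, C, H, φ, hφc, hmemg, by rw [hgeq]; exact hφm, x0, ?_⟩
  refine @Dyn.mk N C H (G ⧸ Γ) _ act x0 ?_ hmemc hmemg ?_ ?_ ?_
  · rintro _ ⟨X, rfl⟩
    rw [hEρ]
    exact he X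
  · have h1 : (⟨E C.Mc, hmemc⟩ : H) = k0⁻¹ * ⟨ue R.M (M_mem R), hm⟩ := by
      apply Subtype.ext
      rw [Subgroup.coe_mul, Subgroup.coe_inv, hX0]
      exact hEMc
    rw [h1, mul_smul, ← hk0, inv_smul_smul]
  · have hcov : (Set.univ : Set (G ⧸ Γ)) ⊆ ⋃ r : ℕ, {y | ∃ k ∈ Kr r, k • x0 = y} := by
      intro y _
      obtain ⟨k, hk, hk2⟩ := htrans x0 y
      obtain ⟨r, hr⟩ := hKex k hk
      exact Set.mem_iUnion.2 ⟨r, k, hr, hk2⟩
    obtain ⟨r, hr⟩ := isCompact_univ.elim_directed_cover _ (fun r : ℕ => hKr r x0) hcov (by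
      intro a b
      refine ⟨max a b, ?_, ?_⟩
      · rintro y ⟨k, ⟨X, hX, hX2⟩, rfl⟩
        exact ⟨k, ⟨X, fun i j => (hX i j).trans_le (by exact_mod_cast le_max_left a b), hX2⟩, rfl⟩
      · rintro y ⟨k, ⟨X, hX, hX2⟩, rfl⟩
        exact ⟨k, ⟨X, fun i j => (hX i j).trans_le (by exact_mod_cast le_max_right a b), hX2⟩, rfl⟩)
    refine ⟨r, fun y => ?_⟩
    obtain ⟨k, ⟨X, hX, hX2⟩, hk⟩ := hr (Set.mem_univ y)
    refine ⟨R.ρ X, ⟨X, rfl⟩, fun i j => (hX i j).le, ?_⟩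
    rw [← hk]
    congr 1
    apply Subtype.ext
    rw [hX2]
    exact hEρ X
  · intro y
    have h1 := hmin 1 one_pos y
    have h2 : (fun n : ℤ => (⟨E C.Mg, hmemg⟩ : H) ^ n • y) = fun n : ℤ => (g ^ 1) ^ n • y := by
      funext n
      rw [hgeq, hact, map_zpow, hφm, pow_one]
    rw [h2]
    exact h1

end Run7.h664.NL
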